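import Pool.Agent.Y316.Tile.Alm

/-!
# Pure point spectrum of the self-similar tilings of almost all substitutions

Let `M` be a nonnegative unimodular irreducible Pisot matrix (`Pis M lam`, `Pool/Agent/H811R3/PS/
Defs.lean`) of size at least `2`. Among all substitutions `σ` with incidence matrix `M ^ k` (all of
them are unimodular irreducible Pisot substitutions) the proportion of those for which `TileOK σ`
fails is at most `exp (-exp (c k))`. `TileOK σ`: the subshift has exactly one shift invariant
probability measure, and for all positive tile lengths, in particular for the positive left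
Perron-Frobenius eigenvector (the self-similar tilings), the translation action on the hull has
pure point spectrum.

So the homological Pisot conjecture (pure point spectrum if unimodular, Pisot and the rational
rank of the first Cech cohomology is the degree) holds for almost all these substitutions.

`hull S ell`, `Moves`, `IsEig`, `hullMeasure`, `IsInv`, `PurePoint` are defined in
`Pool/Agent/Y316/Tile/Defs.lean`, `TileOK` in `Pool/Agent/Y316/Tile/OK.lean`. Written by helper316
with helpers 576 and 369; the combinatorial part is the proof of `AlmostAllSubstitutions`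
(`Pool/Agent/H811R3/PS`).
-/

set_option autoImplicit false

open Filter Pool.Agent.H811R3.PS Pool.Agent.Y316.Tile

namespace Pool.Agent.Results.MP_4168de_an.AlmostAllTilings

theorem result (n : ℕ) (hn : 1 ≤ n) (M : Matrix (Fin (n + 1)) (Fin (n + 1)) ℤ) (lam : ℝ)
    (hM : Pis M lam) (hdet : IsUnit M.det) :
    (∀ k : ℕ, 1 ≤ k → Pis (M ^ k) (lam ^ k) ∧ IsUnit (M ^ k).det ∧
      {σ : Fin (n + 1) → List (Fin (n + 1)) | inc σ = M ^ k}.Finite ∧
      {σ : Fin (n + 1) → List (Fin (n + 1)) | inc σ = M ^ k}.Nonempty) ∧
    ∃ c : ℝ, 0 < c ∧ ∀ᶠ k : ℕ in atTop,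
      ({σ : Fin (n + 1) → List (Fin (n + 1)) | inc σ = M ^ k ∧ ¬ TileOK σ}.ncard : ℝ) ≤
        Real.exp (-(Real.exp (c * k))) *
          ({σ : Fin (n + 1) → List (Fin (n + 1)) | inc σ = M ^ k}.ncard : ℝ) := by
  refine ⟨fun k hk => ?_, almain_ n hn M lam hM hdet⟩
  have h := pk_holds (n + 1) (by omega) M lam hM k hk
  refine ⟨h, ?_, fn_holds (n + 1) (M ^ k) h.nonneg⟩
  rw [Matrix.det_pow]
  exact hdet.pow k

end Pool.Agent.Results.MP_4168de_an.AlmostAllTilings
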