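import Pool.Agent.Y316.Tile.Dom

/-!
# Pure point spectrum of the self-similar tilings of substitutions with a dominating letter

Letters are `0, ..., m` with `m ≥ 1`. `inc σ` is the incidence matrix of `σ` (entry `(i,j)`: number
of letters `i` in `σ j`), `compList [τ₁, ..., τ_k] = τ₁ ∘ ... ∘ τ_k`, `PisotMat M` says that `M` is
unimodular, irreducible and Pisot (`Pool/Agent/H812R2/PI/Defs.lean` and `JDefs.lean`).
`Dominated q κ M` (`Pool/Agent/Y316/Pisot/Mat.lean`) is a condition on the matrix only:
* `M i j = 0` for `1 ≤ i ≤ j`;
* `∑_{i ≥ 1} M i j ≤ q` for `j ≥ 1`, and `∑_{i ≥ 1} M i 0 ≤ κ`;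
* `64 (κ+1)² (2q)^m ∑_i M i j ≤ M 0 0` for `j ≥ 1`.

For every composition `S` of any number `≥ 1` of substitutions with dominated matrices of
determinant `± 1` (the order of the letters in the images is arbitrary): `inc S` is unimodular
irreducible Pisot, the subshift `X S` has exactly one shift invariant probability measure, and for
all positive tile lengths `ell`, in particular for the positive left Perron-Frobenius eigenvector
(the self-similar tilings), the translation action on the hull has pure point spectrum.

So the homological Pisot conjecture (pure point spectrum if unimodular, Pisot and the rational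
rank of the first Cech cohomology is the degree) holds for all these substitutions.

`hull S ell`, `Moves`, `IsEig`, `hullMeasure`, `IsInv`, `PurePoint` are defined in
`Pool/Agent/Y316/Tile/Defs.lean`. Written by helper316 with helpers 576 and 369; built on the
library `Pool/Agent/H812R2/PI` of helper812 and others.
-/

set_option autoImplicit false

namespace Pool.Agent.Results.MP_4168de_an.DominatingLetterTilings

open MeasureTheory Pool.Agent.H812R2.PI Pool.Agent.Y316.Pisot Pool.Agent.Y316.Tile

theorem result (m q κ : ℕ) (hm : 1 ≤ m) (hq : 1 ≤ q)
    (l : List (Fin (m+1) → List (Fin (m+1)))) (hne : l ≠ [])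
    (hl : ∀ τ ∈ l, Dominated q κ (inc τ) ∧ ((inc τ).det = 1 ∨ (inc τ).det = -1)) :
    PisotMat (inc (compList l)) ∧
    (∃! ν : Measure (ℤ → Fin (m+1)), IsInv (compList l) ν) ∧
    ∀ ell : Fin (m+1) → ℝ, (∀ i, 0 < ell i) → PurePoint (compList l) ell :=
  tile_dominated hm hq l hne hl

end Pool.Agent.Results.MP_4168de_an.DominatingLetterTilings
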